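import Pool.Agent.R267.Rearr

set_option autoImplicit false

open Filter Topology
open scoped ENNReal

namespace Pool.Agent.Results.MP_514f39_an.PermutedExpansions

section defs

variable {𝕜 : Type} [RCLike 𝕜] {E : Type} [NormedAddCommGroup E] [NormedSpace 𝕜 E]

/-- the series `∑ α_{σ(i)} x_{σ(i)}` converges to `y` in norm -/
def Expands (x : ℕ → E) (α : ℕ → 𝕜) (σ : Equiv.Perm ℕ) (y : E) : Prop :=
  Tendsto (fun m => ∑ i ∈ Finset.range m, α (σ i) • x (σ i)) atTop (𝓝 y)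

variable (𝕜)

/-- Schauder basis: every vector has exactly one expansion -/
def IsSchauderBasis (x : ℕ → E) : Prop :=
  ∀ y : E, ∃! α : ℕ → 𝕜, Tendsto (fun m => ∑ i ∈ Finset.range m, α i • x i) atTop (𝓝 y)

/-- property (U) -/
def PropertyU (x : ℕ → E) : Prop :=
  ∀ y : E, ∃ α : ℕ → 𝕜, (∃ σ : Equiv.Perm ℕ, Expands x α σ y) ∧
    ∀ (β : ℕ → 𝕜) (π : Equiv.Perm ℕ), Expands x β π y → ∀ n, β n = α n

/-- minimality -/
def IsMinimalSeq (x : ℕ → E) : Prop :=
  ∀ m, x m ∉ closure ((Submodule.span 𝕜 {v | ∃ n, n ≠ m ∧ x n = v} : Submodule 𝕜 E) : Set E)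

end defs

open Pool.Agent.R267 Pool.Agent.R267.RA Pool.Agent.R267.Lex

/-- For both scalar fields there are a separable Banach space `E` and a minimal sequence in `E`
with property (U) none of whose permutations is a Schauder basis of `E`. -/
theorem result : ∀ (𝕜 : Type) [RCLike 𝕜],
    ∃ (E : Type) (_ : NormedAddCommGroup E) (_ : NormedSpace 𝕜 E) (_ : CompleteSpace E)
      (_ : TopologicalSpace.SeparableSpace E) (x : ℕ → E),
      PropertyU 𝕜 x ∧ IsMinimalSeq 𝕜 x ∧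
        ∀ τ : Equiv.Perm ℕ, ¬ IsSchauderBasis 𝕜 (fun n => x (τ n)) := by
  intro 𝕜 _
  have hc : ∀ c, CompleteSpace (VV 𝕜 c) := fun c => FiniteDimensional.complete 𝕜 _
  set e := lexE NN NN_pos with he
  have hsep : TopologicalSpace.SeparableSpace (XX 𝕜) := by
    have h1 : TopologicalSpace.IsSeparable
        ((Submodule.span 𝕜 (Set.range (BS.vec 1 (TT 𝕜))) : Submodule 𝕜 (XX 𝕜)) : Set (XX 𝕜)) :=
      TopologicalSpace.IsSeparable.span (Set.countable_range _).isSeparable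
    have h2 : closure ((Submodule.span 𝕜 (Set.range (BS.vec 1 (TT 𝕜))) : Submodule 𝕜 (XX 𝕜)) :
        Set (XX 𝕜)) = Set.univ := by
      rw [Set.eq_univ_iff_forall]
      exact BS.dense_span 1 (TT 𝕜) (by norm_num)
    have h3 := h1.closure
    rw [h2] at h3
    exact TopologicalSpace.isSeparable_univ_iff.mp h3
  refine ⟨XX 𝕜, inferInstance, inferInstance, inferInstance, hsep,
    fun n => BS.vec 1 (TT 𝕜) (e n), ?_, ?_, ?_⟩
  · intro y
    refine ⟨fun n => BS.fnl 1 (TT 𝕜) (e n) y, ?_, ?_⟩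
    · obtain ⟨σ, hσ⟩ := exists_ordering y
      refine ⟨σ.trans e.symm, ?_⟩
      unfold Expands
      simpa only [Equiv.trans_apply, Equiv.apply_symm_apply] using hσ
    · intro β π hβ n
      unfold Expands at hβ
      have h := BS.coeff_unique 1 (TT 𝕜) continuous_fnl (π.trans e) (fun i => β (e.symm i)) y
        (by simpa only [Equiv.trans_apply, Equiv.symm_apply_apply] using hβ) (e n)
      rwa [Equiv.symm_apply_apply] at h
  · intro m hm
    have hcl : IsClosed {f : XX 𝕜 | BS.fnl 1 (TT 𝕜) (e m) f = 0} :=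
      isClosed_eq (continuous_fnl (e m)) continuous_const
    have hsub : ((Submodule.span 𝕜 {v | ∃ n, n ≠ m ∧ BS.vec 1 (TT 𝕜) (e n) = v} :
        Submodule 𝕜 (XX 𝕜)) : Set (XX 𝕜)) ⊆ {f : XX 𝕜 | BS.fnl 1 (TT 𝕜) (e m) f = 0} := by
      intro f hf
      have : f ∈ LinearMap.ker (BS.fnl 1 (TT 𝕜) (e m)) := by
        refine (Submodule.span_le.mpr ?_) hf
        rintro v ⟨n, hn, rfl⟩
        change BS.fnl 1 (TT 𝕜) (e m) _ = 0
        rw [BS.fnl_vec, if_neg]
        intro h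
        exact hn (e.injective h).symm
      exact this
    have h1 := closure_minimal hsub hcl hm
    change BS.fnl 1 (TT 𝕜) (e m) _ = 0 at h1
    rw [BS.fnl_vec, if_pos rfl] at h1
    exact one_ne_zero h1
  · intro τ hτ
    set σ : ℕ ≃ Σ c, Fin (NN c) := τ.trans e with hσ
    obtain ⟨y, hy⟩ := exists_bad (𝕜 := 𝕜) σ
    obtain ⟨α, hα, _⟩ := hτ y
    set β : (Σ c, Fin (NN c)) → 𝕜 := fun i => α (σ.symm i) with hβ
    have h0 : ∀ m, (∑ n ∈ Finset.range m, β (σ n) • BS.vec 1 (TT 𝕜) (σ n) : XX 𝕜) =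
        ∑ n ∈ Finset.range m, α n • BS.vec 1 (TT 𝕜) (e (τ n)) := by
      intro m
      apply Finset.sum_congr rfl
      intro n _
      rw [hβ]
      simp only [Equiv.symm_apply_apply]
      rfl
    have h1 : Tendsto (fun m => (∑ n ∈ Finset.range m, β (σ n) • BS.vec 1 (TT 𝕜) (σ n) : XX 𝕜))
        atTop (𝓝 y) := by
      simp only [h0]
      exact hα
    have h2 := BS.coeff_unique 1 (TT 𝕜) continuous_fnl σ β y h1
    have h3 : ∀ m, (∑ n ∈ Finset.range m, β (σ n) • BS.vec 1 (TT 𝕜) (σ n) : XX 𝕜) =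
        ∑ n ∈ Finset.range m, BS.fnl 1 (TT 𝕜) (σ n) y • BS.vec 1 (TT 𝕜) (σ n) := by
      intro m
      apply Finset.sum_congr rfl
      intro n _
      rw [h2]
    obtain ⟨B, hB⟩ := h1.norm.bddAbove_range
    obtain ⟨m, hm⟩ := hy B
    have h4 := hB ⟨m, rfl⟩
    simp only [h3] at h4
    linarith

end Pool.Agent.Results.MP_514f39_an.PermutedExpansions
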